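import Pool.Agent.Helper62.BM.KStm

/-!
# Relations stable under `sl_n` (`K_Chart`)
-/

set_option autoImplicit false

open Finset

namespace Pool.Agent.Helper68.BM

open Pool.Agent.Helper62.BM

/-- A polynomial over a field of characteristic zero whose derivatives vanish is a constant. -/
theorem eq_C_of_pd {σ k : Type} [Field k] [CharZero k] (G : MvPolynomial σ k)
    (h : ∀ s, MvPolynomial.pderiv s G = 0) : G = MvPolynomial.C (MvPolynomial.coeff 0 G) := by
  classical
  ext m
  rw [MvPolynomial.coeff_C]
  split_ifs with hm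
  · rw [hm]
  · obtain ⟨s, hs⟩ : ∃ s, m s ≠ 0 := by
      by_contra hc
      push Not at hc
      exact hm (Finsupp.ext fun s => (hc s).symm)
    have h1 := congrArg (MvPolynomial.coeff (m - Finsupp.single s 1)) (h s)
    have hle : Finsupp.single s 1 ≤ m := by
      rw [Finsupp.single_le_iff]; omega
    rw [MvPolynomial.coeff_pderiv, tsub_add_cancel_of_le hle, MvPolynomial.coeff_zero] at h1
    rcases mul_eq_zero.mp h1 with h2 | h2
    · exact h2
    · exact absurd h2 (Nat.cast_add_one_ne_zero _)

/-- The degree of a derivative. -/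
theorem td_pd {σ k : Type} [Field k] (G : MvPolynomial σ k) (s : σ) (N : ℕ)
    (h : G.totalDegree ≤ N + 1) : (MvPolynomial.pderiv s G).totalDegree ≤ N := by
  classical
  refine Finset.sup_le fun m hm => ?_
  rw [MvPolynomial.mem_support_iff, MvPolynomial.coeff_pderiv] at hm
  have h1 : MvPolynomial.coeff (m + Finsupp.single s 1) G ≠ 0 := fun h0 => hm (by rw [h0, zero_mul])
  have h2 := MvPolynomial.le_totalDegree (MvPolynomial.mem_support_iff.mpr h1)
  rw [Finsupp.sum_add_index' (by simp) (by simp)] at h2
  simp only [Finsupp.sum_single_index] at h2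
  omega

/-- The derivatives of a relation are relations. -/
theorem pd_rel {k L : Type} [Field k] [CharZero k] [Field L] [Algebra k L] {d n : ℕ} (hdn : d < n)
    (Y : Matrix (Fin d) (Fin n) L) (hY : ∀ c : Fin d → L, Matrix.vecMul c Y = 0 → c = 0)
    (g : Fin d × Fin n → L)
    (hg : ∀ A : Matrix (Fin n) (Fin n) k, A.trace = 0 →
      ∑ s : Fin d × Fin n, (Y * A.map (algebraMap k L)) s.1 s.2 * g s = 0) : ∀ s, g s = 0 := by
  classical
  -- the `n × n` matrix `Yᵀ g`
  set M : Matrix (Fin n) (Fin n) L := Y.transpose * Matrix.of fun i m => g (i, m) with hM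
  have hMe : ∀ l m, M l m = ∑ i, Y i l * g (i, m) := by
    intro l m
    simp [hM, Matrix.mul_apply]
  have hlin : ∀ A : Matrix (Fin n) (Fin n) k, A.trace = 0 →
      ∑ l, ∑ m, algebraMap k L (A l m) * M l m = 0 := by
    intro A hA
    have h1 := hg A hA
    rw [Fintype.sum_prod_type] at h1
    rw [← h1]
    simp only [Matrix.mul_apply, hMe, Finset.mul_sum, Finset.sum_mul, Matrix.map_apply]
    rw [Finset.sum_comm]
    rw [Finset.sum_comm (s := (univ : Finset (Fin d)))]
    refine Finset.sum_congr rfl fun m _ => ?_
    rw [Finset.sum_comm]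
    refine Finset.sum_congr rfl fun i _ => ?_
    refine Finset.sum_congr rfl fun l _ => ?_
    ring
  have hoff : ∀ l m, l ≠ m → M l m = 0 := by
    intro l m hlm
    have h1 := hlin (Matrix.single l m 1) (by rw [Matrix.trace_single_eq_of_ne _ _ _ hlm])
    rw [Finset.sum_eq_single l, Finset.sum_eq_single m] at h1
    · simpa using h1
    · intro b _ hb
      simp [hb.symm]
    · simp
    · intro b _ hb
      refine Finset.sum_eq_zero fun c _ => ?_
      simp [hb.symm]
    · simp
  have hdiag : ∀ l m, M l l = M m m := by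
    intro l m
    have h1 := hlin (Matrix.diagonal fun j => (if j = l then (1 : k) else 0) -
      (if j = m then (1 : k) else 0)) (by simp [Matrix.trace_diagonal])
    have h2 : ∀ j, ∑ j', algebraMap k L (Matrix.diagonal (fun j => (if j = l then (1 : k) else 0) -
        (if j = m then (1 : k) else 0)) j j') * M j j' =
        (if j = l then M j j else 0) - (if j = m then M j j else 0) := by
      intro j
      rw [Finset.sum_eq_single j]
      · rw [Matrix.diagonal_apply_eq]
        split_ifs <;> simp
      · intro b _ hb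
        rw [Matrix.diagonal_apply_ne _ hb.symm]
        simp
      · simp
    rw [Finset.sum_congr rfl fun j _ => h2 j, Finset.sum_sub_distrib] at h1
    simp only [Finset.sum_ite_eq', Finset.mem_univ, if_true] at h1
    exact sub_eq_zero.mp h1
  have hn : 0 < n := by omega
  have hMc : M = Matrix.diagonal fun _ => M ⟨0, hn⟩ ⟨0, hn⟩ := by
    ext l m
    by_cases hlm : l = m
    · subst hlm
      rw [Matrix.diagonal_apply_eq]
      exact hdiag _ _
    · rw [Matrix.diagonal_apply_ne _ hlm]
      exact hoff l m hlm
  have hc : M ⟨0, hn⟩ ⟨0, hn⟩ = 0 := by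
    by_contra hne
    have hr1 : M.rank ≤ d := by
      calc M.rank ≤ Y.transpose.rank := Matrix.rank_mul_le_left _ _
        _ ≤ Fintype.card (Fin d) := Matrix.rank_le_card_width _
        _ = d := Fintype.card_fin d
    have hr2 : M.rank = n := by
      have hu : IsUnit M := by
        rw [Matrix.isUnit_iff_isUnit_det, hMc, Matrix.det_diagonal]
        simp [hne]
      rw [Matrix.rank_of_isUnit M hu, Fintype.card_fin]
    omega
  have hM0 : M = 0 := by
    rw [hMc, hc]
    simp
  rintro ⟨i, m⟩
  have h3 : (fun i => g (i, m)) = 0 := by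
    apply hY
    ext l
    have h4 := congrFun (congrFun hM0 l) m
    rw [hMe] at h4
    simp only [Matrix.vecMul, dotProduct, Pi.zero_apply]
    rw [Matrix.zero_apply] at h4
    rw [← h4]
    exact Finset.sum_congr rfl fun i _ => mul_comm _ _
  exact congrFun h3 i

/-- KD. -/
theorem kChart : K_Chart := by
  intro k L _ _ _ _ d n hdn Y hY hA
  rw [algebraicIndependent_iff]
  have key : ∀ N : ℕ, ∀ G : MvPolynomial (Fin d × Fin n) k, G.totalDegree ≤ N →
      MvPolynomial.aeval (fun s : Fin d × Fin n => Y s.1 s.2) G = 0 → G = 0 := by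
    intro N
    induction N with
    | zero =>
      intro G hG h0
      have h1 := MvPolynomial.totalDegree_eq_zero_iff_eq_C.mp (Nat.le_zero.mp hG)
      rw [h1, MvPolynomial.aeval_C] at h0
      rw [h1, (map_eq_zero _).mp h0, map_zero]
    | succ N ih =>
      intro G hG h0
      have h1 := pd_rel hdn Y hY (fun s => MvPolynomial.aeval (fun s : Fin d × Fin n => Y s.1 s.2)
            (MvPolynomial.pderiv s G)) fun A htr => hA A htr G h0
      have h2 := eq_C_of_pd G fun s => ih _ (td_pd G s N hG) (h1 s)
      rw [h2, MvPolynomial.aeval_C] at h0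
      rw [h2, (map_eq_zero _).mp h0, map_zero]
  exact fun G h0 => key _ G le_rfl h0

end Pool.Agent.Helper68.BM
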