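import Pool.Agent.Helper62.BM.Stm

/-!
# Package P3: the `p`-curvature of `y² = (x - X) ∏ (x - a_j)` has rank at most one
-/

set_option autoImplicit false

open Polynomial Matrix Finset

namespace Pool.Agent.Helper68.BM

open Pool.Agent.Helper62.BM

variable {F : Type} [Field F]

/-- The coefficientwise derivation. -/
lemma exists_dt (D : Derivation ℤ F F) :
    ∃ E : Derivation ℤ F[X] F[X], ∀ (f : F[X]) (i : ℕ), (E f).coeff i = D (f.coeff i) := by
  let _ : Differential F := ⟨D⟩
  exact ⟨Differential.mapCoeffs, fun f i => Differential.coeff_mapCoeffs f i⟩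

section E

variable {D : Derivation ℤ F F} {E : Derivation ℤ F[X] F[X]}
  (hE : ∀ (f : F[X]) (i : ℕ), (E f).coeff i = D (f.coeff i))

include hE

lemma E_C (c : F) : E (C c) = C (D c) := by
  ext i
  rw [hE, coeff_C, coeff_C]
  split_ifs <;> simp

lemma E_X : E (X : F[X]) = 0 := by
  ext i
  rw [hE, coeff_X]
  split_ifs <;> simp

lemma E_natDegree (f : F[X]) : (E f).natDegree ≤ f.natDegree := by
  rw [natDegree_le_iff_coeff_eq_zero]
  intro i hi
  rw [hE, coeff_eq_zero_of_natDegree_lt hi, map_zero]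

lemma E_der (f : F[X]) : E (derivative f) = derivative (E f) := by
  ext i
  rw [hE, coeff_derivative, coeff_derivative, hE, Derivation.leibniz]
  have : D ((i : F) + 1) = 0 := by
    rw [map_add, Derivation.map_natCast, Derivation.map_one_eq_zero, add_zero]
  rw [this]
  simp [mul_comm]

lemma E_iter (f : F[X]) (k i : ℕ) : ((⇑E)^[k] f).coeff i = (⇑D)^[k] (f.coeff i) := by
  induction k generalizing f with
  | zero => simp
  | succ k ih => rw [Function.iterate_succ_apply, ih, hE, Function.iterate_succ_apply]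

lemma E_XC {c : F} (hc : D c = 0) : E (X - C c) = 0 := by
  rw [map_sub, E_X hE, E_C hE, hc]; simp

lemma E_prod {n : ℕ} {a : Fin n → F} (ha : ∀ j, D (a j) = 0) (s : Finset (Fin n)) :
    E (∏ m ∈ s, (X - C (a m))) = 0 := by
  classical
  induction s using Finset.induction_on with
  | empty => simp
  | insert j s hj ih => rw [prod_insert hj, Derivation.leibniz, ih, E_XC hE (ha j)]; simp

end E

/-- `P(v) = ∑ v_j b_j`. -/
noncomputable def Pv {n : ℕ} (a : Fin n → F) (v : Fin n → F) : F[X] := ∑ j, C (v j) * bp a j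

/-- `f`. -/
noncomputable def fp {n : ℕ} (a : Fin n → F) : F[X] := ∏ j, (X - C (a j))

lemma bp_mul {n : ℕ} (a : Fin n → F) (j : Fin n) : (X - C (a j)) * bp a j = fp a := by
  classical
  rw [bp, fp, ← Finset.mul_prod_erase univ _ (mem_univ j)]

lemma fp_der {n : ℕ} (a : Fin n → F) : derivative (fp a) = ∑ j, bp a j := by
  classical
  rw [fp, derivative_prod_finset]
  refine sum_congr rfl fun j _ => ?_
  simp [bp]

lemma bp_eval_ne {n : ℕ} {a : Fin n → F} (ha : Function.Injective a) (j : Fin n) :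
    (bp a j).eval (a j) ≠ 0 := by
  rw [bp, eval_prod, prod_ne_zero_iff]
  intro m hm
  rw [eval_sub, eval_X, eval_C, sub_ne_zero]
  exact fun h => (mem_erase.1 hm).1 (ha h).symm

lemma bp_eval_zero {n : ℕ} {a : Fin n → F} {i j : Fin n} (h : i ≠ j) :
    (bp a j).eval (a i) = 0 := by
  rw [bp, eval_prod]
  exact prod_eq_zero (mem_erase.2 ⟨h, mem_univ i⟩) (by simp)

lemma Pv_inj {n : ℕ} {a : Fin n → F} (ha : Function.Injective a) {v : Fin n → F}
    (h : Pv a v = 0) : v = 0 := by
  funext i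
  have h1 : (Pv a v).eval (a i) = 0 := by rw [h, eval_zero]
  rw [Pv, eval_finsetSum, sum_eq_single i] at h1
  · rw [eval_mul, eval_C] at h1
    simpa [bp_eval_ne ha i] using h1
  · intro j _ hj
    rw [eval_mul, bp_eval_zero (Ne.symm hj), mul_zero]
  · exact fun h => absurd (mem_univ i) h

lemma Pv_sub_smul {n : ℕ} (a : Fin n → F) (v z : Fin n → F) (c : F) :
    Pv a (v - c • z) = Pv a v - C c * Pv a z := by
  simp only [Pv, Pi.sub_apply, Pi.smul_apply, smul_eq_mul, map_sub, map_mul, sub_mul,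
    sum_sub_distrib, mul_sum]
  congr 1
  exact sum_congr rfl fun j _ => by ring

/-- The key uniqueness statement. -/
lemma key {p q : ℕ} [CharP F p] (hq : q < p) {t : F} {f g z : F[X]} (hf : f.eval t ≠ 0)
    (hg : g.natDegree ≤ q) (h0 : g.eval t = 0)
    (h : z * (X - C t) ^ q = C ((q : F) + 1) * derivative f * g + f * derivative g) :
    z = 0 := by
  have hg0 : g = 0 := by
    by_contra hne
    set m := rootMultiplicity t g with hm
    obtain ⟨g1, hg1, hnd⟩ := exists_eq_pow_rootMultiplicity_mul_and_not_dvd g hne t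
    rw [← hm] at hg1
    have hm1 : 1 ≤ m := by
      rw [Nat.one_le_iff_ne_zero, ← Nat.pos_iff_ne_zero, hm, rootMultiplicity_pos hne]
      exact h0
    have hmq : m ≤ q := by
      have h1 := natDegree_le_of_dvd (Dvd.intro _ hg1.symm) hne
      rw [natDegree_pow, natDegree_X_sub_C, mul_one] at h1
      exact h1.trans hg
    obtain ⟨k, hk⟩ : ∃ k, m = k + 1 := ⟨m - 1, by omega⟩
    obtain ⟨r, hr⟩ : ∃ r, q = k + 1 + r := ⟨q - (k + 1), by omega⟩
    have hd : derivative g = (X - C t) ^ k * (C ((m : F)) * g1 + (X - C t) * derivative g1) := by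
      conv_lhs => rw [hg1, hk]
      rw [derivative_mul, derivative_X_sub_C_pow, hk]
      simp only [Nat.add_sub_cancel]
      push_cast
      ring
    have h2 : (X - C t) ^ k * (z * (X - C t) * (X - C t) ^ r) =
        (X - C t) ^ k * (C ((q : F) + 1) * derivative f * ((X - C t) * g1) +
          f * (C ((m : F)) * g1 + (X - C t) * derivative g1)) := by
      rw [hd] at h
      calc (X - C t) ^ k * (z * (X - C t) * (X - C t) ^ r) = z * (X - C t) ^ q := by
            rw [hr]; ring
        _ = _ := h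
        _ = _ := by
            conv_lhs => rw [hg1, hk]
            rw [hk]
            ring
    have h3 := mul_left_cancel₀ (pow_ne_zero k (X_sub_C_ne_zero t)) h2
    have h4 := congrArg (eval t) h3
    simp only [eval_mul, eval_add, eval_sub, eval_X, eval_C, sub_self, mul_zero, zero_mul,
      add_zero, zero_add, eval_pow] at h4
    have hm0 : (m : F) ≠ 0 := by
      intro h5
      rw [CharP.cast_eq_zero_iff F p] at h5
      exact absurd (Nat.le_of_dvd (by omega) h5) (by omega)
    have hg1' : g1.eval t ≠ 0 := by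
      intro h5
      exact hnd (dvd_iff_isRoot.2 h5)
    exact (mul_ne_zero hf (mul_ne_zero hm0 hg1')) h4.symm
  subst hg0
  simp only [mul_zero, derivative_zero, add_zero, mul_eq_zero] at h
  exact h.resolve_right (pow_ne_zero q (X_sub_C_ne_zero t))

lemma two_Pv_nab {n : ℕ} (D : Derivation ℤ F F) (a : Fin n → F) (t : F) (h2 : (2 : F) ≠ 0)
    (v : Fin n → F) :
    C 2 * Pv a (nab D (Bm t a) v) = C 2 * Pv a (fun j => D (v j)) +
      C (∑ j, v j * (t - a j)⁻¹) * derivative (fp a) - ∑ j, C (v j * (t - a j)⁻¹) * bp a j := by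
  have h1 : ∀ i, (Bm t a *ᵥ v) i = 2⁻¹ * (∑ j, v j * (t - a j)⁻¹ - v i * (t - a i)⁻¹) := by
    intro i
    rw [Matrix.mulVec, dotProduct, ← Finset.add_sum_erase univ (fun j => v j * (t - a j)⁻¹)
      (mem_univ i), add_sub_cancel_left, mul_sum,
      ← Finset.add_sum_erase univ (fun j => Bm t a i j * v j) (mem_univ i)]
    have : Bm t a i i = 0 := by simp [Bm]
    rw [this, zero_mul, zero_add]
    refine sum_congr rfl fun j hj => ?_
    have hji : i ≠ j := fun h => (mem_erase.1 hj).1 h.symm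
    simp only [Bm, of_apply, if_neg hji, mul_inv]
    ring
  have h3 : ∀ i, C 2 * (C (nab D (Bm t a) v i) * bp a i) = C 2 * (C (D (v i)) * bp a i) +
      C (∑ j, v j * (t - a j)⁻¹) * bp a i - C (v i * (t - a i)⁻¹) * bp a i := by
    intro i
    rw [nab, h1]
    have : (C (2 : F)) * C (D (v i) + 2⁻¹ * (∑ j, v j * (t - a j)⁻¹ - v i * (t - a i)⁻¹)) =
        C 2 * C (D (v i)) + C (∑ j, v j * (t - a j)⁻¹) - C (v i * (t - a i)⁻¹) := by
      rw [← C_mul, ← C_mul, ← C_add, ← C_sub]
      congr 1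
      field_simp
      ring
    linear_combination (bp a i) * this
  rw [Pv, mul_sum, sum_congr rfl fun i _ => h3 i, sum_sub_distrib, sum_add_distrib, ← mul_sum,
    ← mul_sum, fp_der, Pv]

lemma Pv_eq {n : ℕ} (a : Fin n → F) {t : F} (hta : ∀ j, t - a j ≠ 0) (v : Fin n → F) :
    Pv a v = C (∑ j, v j * (t - a j)⁻¹) * fp a -
      (X - C t) * ∑ j, C (v j * (t - a j)⁻¹) * bp a j := by
  rw [Pv, map_sum, sum_mul, mul_sum, ← sum_sub_distrib]
  refine sum_congr rfl fun j _ => ?_
  rw [← bp_mul a j]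
  have : C (v j) = C (v j * (t - a j)⁻¹) * C (t - a j) := by
    rw [← C_mul]
    congr 1
    field_simp [hta j]
  rw [this, C_sub]
  ring

section main

variable {D : Derivation ℤ F F} {E : Derivation ℤ F[X] F[X]}
  (hE : ∀ (f : F[X]) (i : ℕ), (E f).coeff i = D (f.coeff i))

include hE

lemma E_bp {n : ℕ} {a : Fin n → F} (ha : ∀ j, D (a j) = 0) (j : Fin n) : E (bp a j) = 0 :=
  E_prod hE ha _

lemma E_fp {n : ℕ} {a : Fin n → F} (ha : ∀ j, D (a j) = 0) : E (fp a) = 0 :=
  E_prod hE ha _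

lemma E_Pv {n : ℕ} {a : Fin n → F} (ha : ∀ j, D (a j) = 0) (v : Fin n → F) :
    E (Pv a v) = Pv a (fun j => D (v j)) := by
  rw [Pv, map_sum, Pv]
  refine sum_congr rfl fun j _ => ?_
  rw [Derivation.leibniz, E_bp hE ha, E_C hE]
  simp [mul_comm]

/-- `d_t (h ^ q) = (1/2) h ^ (q - 1) f`, `q = r + 1`, `2 q + 1 = 0` in `F`. -/
lemma E_hq {n : ℕ} {a : Fin n → F} (ha : ∀ j, D (a j) = 0) {t : F} (ht : D t = 1) {r : ℕ}
    (hr : (2 : F) * ((r : F) + 1) + 1 = 0) :
    C 2 * E (((X - C t) * fp a) ^ (r + 1)) = ((X - C t) * fp a) ^ r * fp a := by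
  rw [Derivation.leibniz_pow, Derivation.leibniz, E_fp hE ha, map_sub, E_X hE, E_C hE, ht]
  have h2 : (C 2 : F[X]) * ((r : F[X]) + 1) = -1 := by
    have : (C 2 : F[X]) * ((r : F[X]) + 1) = C (2 * ((r : F) + 1)) := by
      simp
    rw [this, eq_neg_of_add_eq_zero_left hr]
    simp
  simp only [Nat.add_sub_cancel, smul_eq_mul, nsmul_eq_mul, mul_zero, zero_add, map_one, zero_sub]
  push_cast
  linear_combination (-(((X - C t) * fp a) ^ r * fp a)) * h2

/-- The basic identity. -/
lemma step {n : ℕ} {a : Fin n → F} (ha : ∀ j, D (a j) = 0) {t : F} (ht : D t = 1) {r : ℕ}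
    (hr : (2 : F) * ((r : F) + 1) + 1 = 0) (h2 : (2 : F) ≠ 0) (hta : ∀ j, t - a j ≠ 0)
    (v : Fin n → F) :
    E (Pv a v * ((X - C t) * fp a) ^ (r + 1)) =
      Pv a (nab D (Bm t a) v) * ((X - C t) * fp a) ^ (r + 1) -
      derivative (C (∑ j, v j * (t - a j)⁻¹) * (fp a * ((X - C t) * fp a) ^ (r + 1))) := by
  have hC2 : (C (2 : F)) ≠ 0 := by
    rw [Ne, C_eq_zero]; exact h2
  apply mul_left_cancel₀ hC2
  have e1 := E_hq hE ha ht hr
  have e2 := two_Pv_nab D a t h2 v
  have e3 := Pv_eq a hta v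
  have h3 : (C 2 : F[X]) * ((r : F[X]) + 1) = -1 := by
    have : (C 2 : F[X]) * ((r : F[X]) + 1) = C (2 * ((r : F) + 1)) := by
      simp
    rw [this, eq_neg_of_add_eq_zero_left hr]
    simp
  rw [Derivation.leibniz, E_Pv hE ha, derivative_mul, derivative_C, zero_mul, zero_add,
    derivative_mul, derivative_pow, derivative_mul, derivative_sub, derivative_X, derivative_C,
    sub_zero, one_mul, smul_eq_mul, smul_eq_mul, Nat.add_sub_cancel]
  have h4 : (C ((r + 1 : ℕ) : F)) = (r : F[X]) + 1 := by simp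
  have h5 : (C (2 : F)) = (2 : F[X]) := map_ofNat C 2
  rw [h4]
  rw [h5] at e1 e2 h3 ⊢
  generalize ∑ j, C (v j * (t - a j)⁻¹) * bp a j = R at *
  generalize (∑ j, v j * (t - a j)⁻¹) = c at *
  generalize Pv a (nab D (Bm t a) v) = N at *
  generalize Pv a (fun j => D (v j)) = P1 at *
  generalize Pv a v = P0 at *
  generalize E (((X - C t) * fp a) ^ (r + 1)) = Eh at *
  generalize derivative (fp a) = f' at *
  generalize fp a = f at *
  generalize (X - C t) = s at *
  rw [pow_succ] at *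
  generalize (s * f) ^ r = hr at *
  linear_combination P0 * e1 - (hr * (s * f)) * e2 + (hr * f) * e3 + C c * hr * f * (s * f' + f) * h3

lemma iter {n : ℕ} {a : Fin n → F} (ha : ∀ j, D (a j) = 0) {t : F} (ht : D t = 1) {r : ℕ}
    (hr : (2 : F) * ((r : F) + 1) + 1 = 0) (h2 : (2 : F) ≠ 0) (hta : ∀ j, t - a j ≠ 0)
    (v : Fin n → F) (i : ℕ) :
    ∃ g : F[X], g.natDegree ≤ r + 1 ∧
      (⇑E)^[i] (Pv a v * ((X - C t) * fp a) ^ (r + 1)) =
      Pv a ((nab D (Bm t a))^[i] v) * ((X - C t) * fp a) ^ (r + 1) -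
      derivative (fp a ^ (r + 2) * g) := by
  induction i with
  | zero => exact ⟨0, by simp, by simp⟩
  | succ i ih =>
    obtain ⟨g, hg, h⟩ := ih
    set u := (nab D (Bm t a))^[i] v with hu
    refine ⟨C (∑ j, u j * (t - a j)⁻¹) * (X - C t) ^ (r + 1) + E g, ?_, ?_⟩
    · refine (natDegree_add_le _ _).trans (max_le ?_ ((E_natDegree hE g).trans hg))
      refine (natDegree_C_mul_le _ _).trans ?_
      rw [natDegree_pow, natDegree_X_sub_C, mul_one]
    · rw [Function.iterate_succ_apply', Function.iterate_succ_apply', h, map_sub,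
        step hE ha ht hr h2 hta, E_der hE, ← hu, sub_sub, ← derivative_add]
      congr 2
      rw [Derivation.leibniz, Derivation.leibniz_pow, E_fp hE ha, mul_pow]
      simp only [smul_zero, add_zero, smul_eq_mul]
      ring

end main

/-- The vector space of the possible columns has dimension at most one. -/
lemma col {p : ℕ} [Fact p.Prime] [CharP F p] (D : Derivation ℤ F F) {r : ℕ}
    (hp : p = 2 * (r + 1) + 1) (hD : ∀ c : F, (⇑D)^[p] c = 0) {n : ℕ} {a : Fin n → F}
    (ha : ∀ j, D (a j) = 0) {t : F} (ht : D t = 1) (h2 : (2 : F) ≠ 0) (hta : ∀ j, t - a j ≠ 0)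
    (v : Fin n → F) :
    ∃ g : F[X], g.natDegree ≤ r + 1 ∧
      Pv a ((nab D (Bm t a))^[p] v) * (X - C t) ^ (r + 1) =
        C (((r + 1 : ℕ) : F) + 1) * derivative (fp a) * g + fp a * derivative g := by
  obtain ⟨E, hE⟩ := exists_dt D
  have hr : (2 : F) * ((r : F) + 1) + 1 = 0 := by
    have := CharP.cast_eq_zero F p
    rw [hp] at this
    push_cast at this
    exact this
  obtain ⟨g, hg, h⟩ := iter hE ha ht hr h2 hta v p
  refine ⟨g, hg, ?_⟩
  have h0 : (⇑E)^[p] (Pv a v * ((X - C t) * fp a) ^ (r + 1)) = 0 := by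
    ext i
    rw [E_iter hE, hD, coeff_zero]
  rw [h0] at h
  have hf : fp a ≠ 0 := prod_ne_zero_iff.2 fun j _ => X_sub_C_ne_zero (a j)
  apply mul_left_cancel₀ (pow_ne_zero (r + 1) hf)
  have h3 := (sub_eq_zero.1 h.symm)
  rw [mul_pow] at h3
  rw [derivative_mul, derivative_pow] at h3
  have h4 : (C ((r + 2 : ℕ) : F)) = C (((r + 1 : ℕ) : F) + 1) := by
    congr 1
    push_cast
    ring
  rw [h4, show r + 2 - 1 = r + 1 from rfl] at h3
  linear_combination h3

/-- **P3.** -/
theorem rank : S_Rank := by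
  intro F _ p _ _ D hp2 hD n t a ht ha hinj
  have hpp : p.Prime := Fact.out
  obtain ⟨r, hr⟩ : ∃ r, p = 2 * (r + 1) + 1 := by
    have h1 := hpp.two_le
    obtain ⟨k, hk⟩ := hpp.odd_of_ne_two hp2
    exact ⟨k - 1, by omega⟩
  have h2 : (2 : F) ≠ 0 := by
    intro h
    have h3 : ((2 : ℕ) : F) = 0 := by exact_mod_cast h
    rw [CharP.cast_eq_zero_iff F p] at h3
    exact hp2 ((Nat.prime_dvd_prime_iff_eq hpp Nat.prime_two).1 h3)
  have hta : ∀ j, t - a j ≠ 0 := by
    intro j h
    have := congrArg D h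
    rw [map_sub, ht, ha j, map_zero, sub_zero] at this
    exact one_ne_zero this
  have hft : (fp a).eval t ≠ 0 := by
    rw [fp, eval_prod, prod_ne_zero_iff]
    intro j _
    simpa using hta j
  choose g hg hgv using fun v : Fin n → F => col D hr hD ha ht h2 hta v
  set ψ : Fin n → Fin n → F := fun j => (nab D (Bm t a))^[p] (Pi.single j 1) with hψ
  set θ : Fin n → F := fun j => (g (Pi.single j 1)).eval t with hθ
  -- two vectors
  have main : ∀ (u w : Fin n → F) (c : F), (g u).eval t = c * (g w).eval t →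
      (nab D (Bm t a))^[p] u = c • (nab D (Bm t a))^[p] w := by
    intro u w c huw
    have hz : Pv a ((nab D (Bm t a))^[p] u - c • (nab D (Bm t a))^[p] w) = 0 := by
      refine key (p := p) (q := r + 1) (by omega) (t := t) (f := fp a)
        (g := g u - C c * g w) hft ?_ ?_ ?_
      · refine (natDegree_sub_le _ _).trans (max_le (hg u) ?_)
        exact (natDegree_C_mul_le _ _).trans (hg w)
      · simp [huw]
      · rw [Pv_sub_smul, derivative_sub, derivative_C_mul]
        linear_combination hgv u - C c * hgv w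
    exact sub_eq_zero.1 (Pv_inj hinj hz)
  by_cases hall : ∀ j, θ j = 0
  · refine ⟨0, 0, ?_⟩
    ext i j
    have h3 : (nab D (Bm t a))^[p] (Pi.single j 1) = (0 : F) • (nab D (Bm t a))^[p] 0 :=
      main (Pi.single j 1) 0 0 (by rw [zero_mul]; exact hall j)
    simp only [pcv, of_apply, h3, zero_smul, Pi.zero_apply, vecMulVec_apply, mul_zero]
  · push Not at hall
    obtain ⟨j0, hj0⟩ := hall
    refine ⟨ψ j0, fun j => θ j / θ j0, ?_⟩
    ext i j
    have h3 := main (Pi.single j 1) (Pi.single j0 1) (θ j / θ j0)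
      (by rw [div_mul_cancel₀]; exact hj0)
    simp only [pcv, of_apply, h3, vecMulVec_apply, Pi.smul_apply, smul_eq_mul, hψ]
    ring

end Pool.Agent.Helper68.BM
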