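import Pool.Agent.Helper62.BM.KStm
import Pool.Agent.Helper68.BM.Rank

/-!
# Package KA: the `p`-curvature of `y ^ m = f(x) / (x - t)` has rank at most one
-/

set_option autoImplicit false

open Polynomial Matrix Finset

namespace Pool.Agent.Helper68.BM

open Pool.Agent.Helper62.BM

variable {F : Type} [Field F]

/-- The key uniqueness statement. -/
lemma key' {p q : ℕ} [CharP F p] (hq : q < p) {t κ : F} {f g z : F[X]} (hf : f.eval t ≠ 0)
    (hg : g.natDegree ≤ q) (h0 : g.eval t = 0)
    (h : z * (X - C t) ^ q = C κ * derivative f * g + f * derivative g) :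
    z = 0 := by
  have hg0 : g = 0 := by
    by_contra hne
    set m := rootMultiplicity t g with hm
    obtain ⟨g1, hg1, hnd⟩ := exists_eq_pow_rootMultiplicity_mul_and_not_dvd g hne t
    rw [← hm] at hg1
    have hm1 : 1 ≤ m := by
      rw [Nat.one_le_iff_ne_zero, ← Nat.pos_iff_ne_zero, hm, rootMultiplicity_pos hne]
      exact h0
    have hmq : m ≤ q := by
      have h1 := natDegree_le_of_dvd (Dvd.intro _ hg1.symm) hne
      rw [natDegree_pow, natDegree_X_sub_C, mul_one] at h1
      exact h1.trans hg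
    obtain ⟨k, hk⟩ : ∃ k, m = k + 1 := ⟨m - 1, by omega⟩
    obtain ⟨r, hr⟩ : ∃ r, q = k + 1 + r := ⟨q - (k + 1), by omega⟩
    have hd : derivative g = (X - C t) ^ k * (C ((m : F)) * g1 + (X - C t) * derivative g1) := by
      conv_lhs => rw [hg1, hk]
      rw [derivative_mul, derivative_X_sub_C_pow, hk]
      simp only [Nat.add_sub_cancel]
      push_cast
      ring
    have h2 : (X - C t) ^ k * (z * (X - C t) * (X - C t) ^ r) =
        (X - C t) ^ k * (C κ * derivative f * ((X - C t) * g1) +
          f * (C ((m : F)) * g1 + (X - C t) * derivative g1)) := by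
      rw [hd] at h
      calc (X - C t) ^ k * (z * (X - C t) * (X - C t) ^ r) = z * (X - C t) ^ q := by
            rw [hr]; ring
        _ = _ := h
        _ = _ := by
            conv_lhs => rw [hg1, hk]
            rw [hk]
            ring
    have h3 := mul_left_cancel₀ (pow_ne_zero k (X_sub_C_ne_zero t)) h2
    have h4 := congrArg (eval t) h3
    simp only [eval_mul, eval_add, eval_sub, eval_X, eval_C, sub_self, mul_zero, zero_mul,
      add_zero, zero_add, eval_pow] at h4
    have hm0 : (m : F) ≠ 0 := by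
      intro h5
      rw [CharP.cast_eq_zero_iff F p] at h5
      exact absurd (Nat.le_of_dvd (by omega) h5) (by omega)
    have hg1' : g1.eval t ≠ 0 := by
      intro h5
      exact hnd (dvd_iff_isRoot.2 h5)
    exact (mul_ne_zero hf (mul_ne_zero hm0 hg1')) h4.symm
  subst hg0
  simp only [mul_zero, derivative_zero, add_zero, mul_eq_zero] at h
  exact h.resolve_right (pow_ne_zero q (X_sub_C_ne_zero t))

lemma Pv_nab {n : ℕ} (D : Derivation ℤ F F) (a : Fin n → F) (t κ : F) (v : Fin n → F) :
    Pv a (nab D (Bk κ t a) v) = Pv a (fun j => D (v j)) +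
      C κ * (C (∑ j, v j * (t - a j)⁻¹) * derivative (fp a) -
        ∑ j, C (v j * (t - a j)⁻¹) * bp a j) := by
  have h1 : ∀ i, (Bk κ t a *ᵥ v) i = κ * (∑ j, v j * (t - a j)⁻¹ - v i * (t - a i)⁻¹) := by
    intro i
    rw [Matrix.mulVec, dotProduct, ← Finset.add_sum_erase univ (fun j => v j * (t - a j)⁻¹)
      (mem_univ i), add_sub_cancel_left, mul_sum,
      ← Finset.add_sum_erase univ (fun j => Bk κ t a i j * v j) (mem_univ i)]
    have : Bk κ t a i i = 0 := by simp [Bk]
    rw [this, zero_mul, zero_add]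
    refine sum_congr rfl fun j hj => ?_
    have hji : i ≠ j := fun h => (mem_erase.1 hj).1 h.symm
    simp only [Bk, of_apply, if_neg hji]
    ring
  have h3 : ∀ i, (C (nab D (Bk κ t a) v i) * bp a i) = (C (D (v i)) * bp a i) +
      C κ * (C (∑ j, v j * (t - a j)⁻¹) * bp a i - C (v i * (t - a i)⁻¹) * bp a i) := by
    intro i
    rw [nab, h1, C_add, C_mul, C_sub]
    ring
  rw [Pv, sum_congr rfl fun i _ => h3 i, sum_add_distrib, ← mul_sum, sum_sub_distrib, ← mul_sum,
    fp_der, Pv]

section main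

variable {D : Derivation ℤ F F} {E : Derivation ℤ F[X] F[X]}
  (hE : ∀ (f : F[X]) (i : ℕ), (E f).coeff i = D (f.coeff i))

include hE

/-- The basic identity. -/
lemma step' {n : ℕ} {a : Fin n → F} (ha : ∀ j, D (a j) = 0) {t : F} (ht : D t = 1) {q q' : ℕ}
    (hq : ((q : F) + 1) + (q' : F) = 0) (hta : ∀ j, t - a j ≠ 0)
    (v : Fin n → F) :
    E (Pv a v * ((X - C t) ^ q' * fp a ^ q)) =
      Pv a (nab D (Bk ((q : F) + 1) t a) v) * ((X - C t) ^ q' * fp a ^ q) -
      derivative (C (∑ j, v j * (t - a j)⁻¹) * (fp a ^ (q + 1) * (X - C t) ^ q')) := by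
  have e2 := Pv_nab D a t ((q : F) + 1) v
  have e3 := Pv_eq a hta v
  have hq2 : (C ((q : F) + 1) : F[X]) = - (q' : F[X]) := by
    rw [eq_neg_iff_add_eq_zero.2 hq]
    simp
  have hE1 : E ((X - C t) ^ q' * fp a ^ q) = - ((q' : F[X]) * (X - C t) ^ (q' - 1) * fp a ^ q) := by
    rw [Derivation.leibniz, Derivation.leibniz_pow, Derivation.leibniz_pow, E_fp hE ha, map_sub,
      E_X hE, E_C hE, ht]
    simp only [smul_eq_mul, nsmul_eq_mul, mul_zero, zero_sub, map_one, zero_add]
    ring
  rw [Derivation.leibniz, E_Pv hE ha, hE1, derivative_mul, derivative_C, zero_mul, zero_add,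
    derivative_mul, derivative_pow, derivative_pow, derivative_sub, derivative_X, derivative_C,
    sub_zero, mul_one, smul_eq_mul, smul_eq_mul, Nat.add_sub_cancel, e2]
  have h4 : (C ((q + 1 : ℕ) : F)) = C ((q : F) + 1) := by push_cast; rfl
  have h6 : (C (q' : F) : F[X]) = (q' : F[X]) := by simp
  rw [h4, h6, hq2]
  have key2 : (q' : F[X]) * ((X - C t) ^ (q' - 1) * (X - C t)) = (q' : F[X]) * (X - C t) ^ q' := by
    rcases Nat.eq_zero_or_pos q' with h0 | h0
    · rw [h0]; simp
    · rw [← pow_succ]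
      congr 2
      omega
  generalize ∑ j, C (v j * (t - a j)⁻¹) * bp a j = R at *
  generalize (∑ j, v j * (t - a j)⁻¹) = c at *
  generalize Pv a (fun j => D (v j)) = P1 at *
  generalize Pv a v = P0 at *
  generalize derivative (fp a) = f' at *
  generalize fp a = f at *
  generalize (X - C t) ^ (q' - 1) = s1 at *
  generalize (X - C t) ^ q' = s2 at *
  generalize (X - C t) = s at *
  rw [pow_succ f q]
  generalize f ^ q = fq at *
  generalize (q' : F[X]) = Q at *
  rw [e3]
  linear_combination (R * fq) * key2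

lemma iter' {n : ℕ} {a : Fin n → F} (ha : ∀ j, D (a j) = 0) {t : F} (ht : D t = 1) {q q' : ℕ}
    (hq : ((q : F) + 1) + (q' : F) = 0) (hta : ∀ j, t - a j ≠ 0)
    (v : Fin n → F) (i : ℕ) :
    ∃ g : F[X], g.natDegree ≤ q' ∧
      (⇑E)^[i] (Pv a v * ((X - C t) ^ q' * fp a ^ q)) =
      Pv a ((nab D (Bk ((q : F) + 1) t a))^[i] v) * ((X - C t) ^ q' * fp a ^ q) -
      derivative (fp a ^ (q + 1) * g) := by
  induction i with
  | zero => exact ⟨0, by simp, by simp⟩
  | succ i ih =>
    obtain ⟨g, hg, h⟩ := ih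
    set u := (nab D (Bk ((q : F) + 1) t a))^[i] v with hu
    refine ⟨C (∑ j, u j * (t - a j)⁻¹) * (X - C t) ^ q' + E g, ?_, ?_⟩
    · refine (natDegree_add_le _ _).trans (max_le ?_ ((E_natDegree hE g).trans hg))
      refine (natDegree_C_mul_le _ _).trans ?_
      rw [natDegree_pow, natDegree_X_sub_C, mul_one]
    · rw [Function.iterate_succ_apply', Function.iterate_succ_apply', h, map_sub,
        step' hE ha ht hq hta, E_der hE, ← hu, sub_sub, ← derivative_add]
      congr 2
      rw [Derivation.leibniz, Derivation.leibniz_pow, E_fp hE ha]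
      simp only [smul_zero, add_zero, smul_eq_mul]
      ring

end main

/-- The vector space of the possible columns has dimension at most one. -/
lemma col' {p : ℕ} [Fact p.Prime] [CharP F p] (D : Derivation ℤ F F) {q : ℕ}
    (hqp : q < p) (hD : ∀ c : F, (⇑D)^[p] c = 0) {n : ℕ} {a : Fin n → F}
    (ha : ∀ j, D (a j) = 0) {t : F} (ht : D t = 1) (hta : ∀ j, t - a j ≠ 0)
    (v : Fin n → F) :
    ∃ g : F[X], g.natDegree ≤ p - 1 - q ∧
      Pv a ((nab D (Bk ((q : F) + 1) t a))^[p] v) * (X - C t) ^ (p - 1 - q) =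
        C ((q : F) + 1) * derivative (fp a) * g + fp a * derivative g := by
  obtain ⟨E, hE⟩ := exists_dt D
  have hq : ((q : F) + 1) + ((p - 1 - q : ℕ) : F) = 0 := by
    have := CharP.cast_eq_zero F p
    have h1 : p = q + 1 + (p - 1 - q) := by omega
    rw [h1] at this
    push_cast at this
    exact this
  obtain ⟨g, hg, h⟩ := iter' hE ha ht hq hta v p
  refine ⟨g, hg, ?_⟩
  have h0 : (⇑E)^[p] (Pv a v * ((X - C t) ^ (p - 1 - q) * fp a ^ q)) = 0 := by
    ext i
    rw [E_iter hE, hD, coeff_zero]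
  rw [h0] at h
  have hf : fp a ≠ 0 := prod_ne_zero_iff.2 fun j _ => X_sub_C_ne_zero (a j)
  apply mul_left_cancel₀ (pow_ne_zero q hf)
  have h3 := (sub_eq_zero.1 h.symm)
  rw [derivative_mul, derivative_pow] at h3
  have h4 : (C ((q + 1 : ℕ) : F)) = C ((q : F) + 1) := by
    congr 1
    push_cast
    ring
  rw [h4, Nat.add_sub_cancel] at h3
  linear_combination h3

/-- **KA.** -/
theorem k_rank : K_Rank := by
  intro F _ p _ _ D hD q hqp n t a ht ha hinj
  have hta : ∀ j, t - a j ≠ 0 := by
    intro j h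
    have := congrArg D h
    rw [map_sub, ht, ha j, map_zero, sub_zero] at this
    exact one_ne_zero this
  have hft : (fp a).eval t ≠ 0 := by
    rw [fp, eval_prod, prod_ne_zero_iff]
    intro j _
    simpa using hta j
  choose g hg hgv using fun v : Fin n → F => col' (q := q) D hqp hD ha ht hta v
  set ψ : Fin n → Fin n → F := fun j => (nab D (Bk ((q : F) + 1) t a))^[p] (Pi.single j 1) with hψ
  set θ : Fin n → F := fun j => (g (Pi.single j 1)).eval t with hθ
  have hp0 : 0 < p := (Fact.out : p.Prime).pos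
  -- two vectors
  have main : ∀ (u w : Fin n → F) (c : F), (g u).eval t = c * (g w).eval t →
      (nab D (Bk ((q : F) + 1) t a))^[p] u = c • (nab D (Bk ((q : F) + 1) t a))^[p] w := by
    intro u w c huw
    have hz : Pv a ((nab D (Bk ((q : F) + 1) t a))^[p] u -
        c • (nab D (Bk ((q : F) + 1) t a))^[p] w) = 0 := by
      refine key' (p := p) (q := p - 1 - q) (by omega) (t := t) (f := fp a) (κ := (q : F) + 1)
        (g := g u - C c * g w) hft ?_ ?_ ?_
      · refine (natDegree_sub_le _ _).trans (max_le (hg u) ?_)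
        exact (natDegree_C_mul_le _ _).trans (hg w)
      · simp [huw]
      · rw [Pv_sub_smul, derivative_sub, derivative_C_mul]
        linear_combination hgv u - C c * hgv w
    exact sub_eq_zero.1 (Pv_inj hinj hz)
  by_cases hall : ∀ j, θ j = 0
  · refine ⟨0, 0, ?_⟩
    ext i j
    have h3 : (nab D (Bk ((q : F) + 1) t a))^[p] (Pi.single j 1) =
        (0 : F) • (nab D (Bk ((q : F) + 1) t a))^[p] 0 :=
      main (Pi.single j 1) 0 0 (by rw [zero_mul]; exact hall j)
    simp only [pcv, of_apply, h3, zero_smul, Pi.zero_apply, vecMulVec_apply, mul_zero]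
  · push Not at hall
    obtain ⟨j0, hj0⟩ := hall
    refine ⟨ψ j0, fun j => θ j / θ j0, ?_⟩
    ext i j
    have h3 := main (Pi.single j 1) (Pi.single j0 1) (θ j / θ j0)
      (by rw [div_mul_cancel₀]; exact hj0)
    simp only [pcv, of_apply, h3, vecMulVec_apply, Pi.smul_apply, smul_eq_mul, hψ]
    ring

end Pool.Agent.Helper68.BM
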